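import Pool.Agent.Helper14.BSC.Stmts2

/-!
# FACT: rational functions all of whose valuations are divisible by `N`
-/

set_option autoImplicit false

namespace Pool.Agent.Helper14.BSC

open Polynomial UniqueFactorizationMonoid

noncomputable section

/-- multiplicity of an irreducible in a polynomial -/
def fact_v {F : Type} [Field F] [DecidableEq F] [DecidableEq F[X]] (π A : F[X]) : ℕ :=
  Multiset.count π (normalizedFactors A)

theorem fact_v_mul {F : Type} [Field F] [DecidableEq F] [DecidableEq F[X]] (π : F[X]) {A B : F[X]} (hA : A ≠ 0)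
    (hB : B ≠ 0) : fact_v π (A * B) = fact_v π A + fact_v π B := by
  unfold fact_v
  rw [normalizedFactors_mul hA hB, Multiset.count_add]

theorem fact_v_pow {F : Type} [Field F] [DecidableEq F] [DecidableEq F[X]] (π A : F[X]) (n : ℕ) :
    fact_v π (A ^ n) = n * fact_v π A := by
  unfold fact_v
  rw [normalizedFactors_pow, Multiset.count_nsmul]

theorem fact_v_zero {F : Type} [Field F] [DecidableEq F] [DecidableEq F[X]] {π A : F[X]} (h : ¬ π ∣ A) :
    fact_v π A = 0 := by
  unfold fact_v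
  rw [Multiset.count_eq_zero]
  intro h1
  exact h (dvd_of_mem_normalizedFactors h1)

theorem fact_v_self {F : Type} [Field F] [DecidableEq F] [DecidableEq F[X]] {π : F[X]} (h : Irreducible π)
    (hn : normalize π = π) : fact_v π π = 1 := by
  unfold fact_v
  rw [normalizedFactors_irreducible h, hn, Multiset.count_singleton_self]

/-- a polynomial all whose multiplicities are divisible by `N` -/
theorem fact_poly {F : Type} [Field F] [DecidableEq F] [DecidableEq F[X]] {W : F[X]} (hW : W ≠ 0) (N : ℕ)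
    (hN : 0 < N) (h : ∀ π : F[X], Irreducible π → normalize π = π → N ∣ fact_v π W) :
    ∃ (a : F) (Z : F[X]), a ≠ 0 ∧ Z ≠ 0 ∧ W = C a * Z ^ N := by
  obtain ⟨u, hu⟩ := Multiset.exists_smul_of_dvd_count (normalizedFactors W) (k := N)
    (fun π hπ => h π (irreducible_of_normalized_factor π hπ) (normalize_normalized_factor π hπ))
  have h1 := prod_normalizedFactors hW
  rw [hu, Multiset.prod_nsmul] at h1
  obtain ⟨c, hc⟩ := h1
  obtain ⟨a, ha, hac⟩ := Polynomial.isUnit_iff.1 c.isUnit
  refine ⟨a, u.prod, ha.ne_zero, ?_, ?_⟩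
  · intro h0
    rw [h0, zero_pow hN.ne', zero_mul] at hc
    exact hW hc.symm
  · rw [← hc, ← hac]
    ring

theorem st_FACT : ST_FACT := by
  classical
  intro F _ N hN x hx h
  set ι := algebraMap F[X] (RatFunc F) with hι
  have hinj : Function.Injective ι := RatFunc.algebraMap_injective F
  set A := x.num with hA
  set B := x.denom with hB
  have hA0 : A ≠ 0 := RatFunc.num_ne_zero hx
  have hB0 : B ≠ 0 := RatFunc.denom_ne_zero x
  have hιB : ι B ≠ 0 := fun h0 => hB0 (hinj (by rw [h0, map_zero]))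
  have hxAB : x * ι B = ι A := by
    have h1 := RatFunc.num_div_denom x
    rw [div_eq_iff hιB] at h1
    exact h1.symm
  obtain ⟨M, rfl⟩ : ∃ M, N = M + 1 := ⟨N - 1, by omega⟩
  have hW0 : A * B ^ M ≠ 0 := mul_ne_zero hA0 (pow_ne_zero _ hB0)
  obtain ⟨a, Z, ha, hZ, hW⟩ := fact_poly hW0 (M + 1) hN (by
    intro π hπ hn
    have hπ0 : π ≠ 0 := hπ.ne_zero
    have hιπ : ι π ≠ 0 := fun h0 => hπ0 (hinj (by rw [h0, map_zero]))
    have hvπ := fact_v_self hπ hn
    rw [fact_v_mul π hA0 (pow_ne_zero _ hB0), fact_v_pow]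
    obtain ⟨s, P, Q, hP, hQ, hPQ⟩ := h π hπ
    have hP0 : P ≠ 0 := fun h0 => hP (by rw [h0]; exact dvd_zero _)
    have hQ0 : Q ≠ 0 := fun h0 => hQ (by rw [h0]; exact dvd_zero _)
    obtain ⟨n, rfl | rfl⟩ := s.eq_nat_or_neg
    · have e1 : -(((M + 1 : ℕ) : ℤ) * (n : ℤ)) = -(((M + 1) * n : ℕ) : ℤ) := by push_cast; ring
      rw [e1, zpow_neg, zpow_natCast] at hPQ
      have e2 : A * Q = B * P * π ^ ((M + 1) * n) := by
        apply hinj
        rw [map_mul, map_mul, map_mul, map_pow, ← hxAB, ← hPQ]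
        field_simp
        rfl
      have e3 := congrArg (fact_v π) e2
      rw [fact_v_mul π hA0 hQ0, fact_v_mul π (mul_ne_zero hB0 hP0) (pow_ne_zero _ hπ0),
        fact_v_mul π hB0 hP0, fact_v_pow, fact_v_zero hP, fact_v_zero hQ, hvπ] at e3
      refine ⟨n + fact_v π B, ?_⟩
      simp only [add_zero, mul_one] at e3
      rw [e3]
      ring
    · have e1 : -(((M + 1 : ℕ) : ℤ) * (-(n : ℤ))) = (((M + 1) * n : ℕ) : ℤ) := by push_cast; ring
      rw [e1, zpow_natCast] at hPQ
      have e2 : A * Q * π ^ ((M + 1) * n) = B * P := by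
        apply hinj
        rw [map_mul, map_mul, map_mul, map_pow, ← hxAB, ← hPQ]
        ring
      have e3 := congrArg (fact_v π) e2
      rw [fact_v_mul π (mul_ne_zero hA0 hQ0) (pow_ne_zero _ hπ0), fact_v_mul π hA0 hQ0,
        fact_v_mul π hB0 hP0, fact_v_pow, fact_v_zero hP, fact_v_zero hQ, hvπ] at e3
      simp only [add_zero, mul_one] at e3
      rw [← Nat.dvd_add_left (Dvd.intro n rfl : (M + 1) ∣ (M + 1) * n)]
      refine ⟨fact_v π B, ?_⟩
      rw [← e3]
      linarith [e3])
  refine ⟨a, ι Z / ι B, ha, ?_, ?_⟩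
  · exact div_ne_zero (fun h0 => hZ (hinj (by rw [h0, map_zero]))) hιB
  · have h2 := congrArg ι hW
    rw [map_mul, map_mul, map_pow, map_pow, ← hxAB] at h2
    have h3 : ι (C a) = algebraMap F (RatFunc F) a := by
      rw [hι, RatFunc.algebraMap_C]
      rfl
    rw [h3] at h2
    rw [div_pow, mul_div_assoc', eq_div_iff (pow_ne_zero _ hιB), ← h2]
    ring

end

end Pool.Agent.Helper14.BSC
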